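import Pool.Agent.H649Z.LRMain

set_option autoImplicit false

namespace Pool.Agent.Results.MP_4c83b4_gt.AVolumeBoundFails

open MeasureTheory Pool.Agent.H649Z.LR
open scoped ENNReal

/-- For `n = k + 1 = 3` there is a convex body `D` in `ℝ^{2n}` whose interior meets `{p_n = 0}` with
`(n! min (Vol D⁺, Vol D⁻))^{1/n} < c_LR (D, D ∩ ℝ^{n,n-1})`, for both sign conventions of the
Hamiltonian vector field. -/
theorem result : ∃ (k : ℕ) (D : Set (Phase (k + 1))),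
    Convex ℝ D ∧ IsCompact D ∧ (interior D ∩ coiso k).Nonempty ∧
    ∀ σ : ℝ, σ = 1 ∨ σ = -1 →
      ((Nat.factorial (k + 1) : ℝ≥0∞) *
        min (volume (D ∩ {x | 0 ≤ x.2 (Fin.last k)}))
          (volume (D ∩ {x | x.2 (Fin.last k) ≤ 0}))) ^ (1 / ((k + 1 : ℕ) : ℝ)) < cLR σ D :=
  ⟨2, Dr 1, main⟩

end Pool.Agent.Results.MP_4c83b4_gt.AVolumeBoundFails
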